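import Mathlib

set_option autoImplicit false

open scoped Pointwise
open MeasureTheory Filter Topology

namespace Pool.Agent.Results.MP_827700_an.ProperLimits

/-- The trajectory `T_n(φ, C) = C · φ(C) · φ²(C) ⋯ φ^{n-1}(C)` (ordered product of subsets of a
group which is not assumed to be abelian). -/
def traj {G : Type*} [Group G] (φ : G → G) (C : Set G) (n : ℕ) : Set G :=
  ((List.range n).map fun i => (φ^[i]) '' C).prod

/-- `H_A(φ, C) = limsup (1/n) log μ(T_n(φ, C))`. -/
noncomputable def HA {G : Type*} [Group G] [MeasurableSpace G]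
    (μ : Measure G) (φ : G → G) (C : Set G) : EReal :=
  limsup (fun n : ℕ => (((n : ℝ)⁻¹ : ℝ) : EReal) * ENNReal.log (μ (traj φ C n))) atTop

/-- The algebraic entropy `h_A(φ)`, computed with the measure `μ`: the supremum of
`H_A(φ, C)` over all compact neighbourhoods `C` of `1`. -/
noncomputable def hA {G : Type*} [Group G] [TopologicalSpace G] [MeasurableSpace G]
    (μ : Measure G) (φ : G → G) : EReal :=
  ⨆ (C : Set G) (_ : IsCompact C ∧ C ∈ 𝓝 (1 : G)), HA μ φ C

section basic

variable {G : Type*} [Group G]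

lemma traj_zero (φ : G → G) (C : Set G) : traj φ C 0 = 1 := by
  simp [traj]

lemma image_list_prod {H : Type*} [Group H] (φ : H →* G) (l : List (Set H)) :
    φ '' l.prod = (l.map fun A => φ '' A).prod := by
  induction l with
  | nil => simp [← Set.singleton_one]
  | cons a l ih => simp [Set.image_mul, ih]

lemma traj_succ (φ : G →* G) (C : Set G) (n : ℕ) :
    traj φ C (n + 1) = C * φ '' (traj φ C n) := by
  unfold traj
  rw [image_list_prod, List.range_succ_eq_map, List.map_cons, List.prod_cons, List.map_map,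
    List.map_map]
  congr 1
  · simp
  · congr 1
    apply List.map_congr_left
    intro i _
    simp only [Function.comp_apply]
    rw [← Set.image_comp, Nat.succ_eq_add_one, Function.iterate_succ']

lemma traj_succ' (φ : G → G) (C : Set G) (n : ℕ) :
    traj φ C (n + 1) = traj φ C n * (φ^[n]) '' C := by
  unfold traj
  rw [List.range_succ, List.map_append, List.prod_append]
  simp

lemma traj_add (φ : G →* G) (C : Set G) (n m : ℕ) :
    traj φ C (n + m) = traj φ C n * (φ^[n]) '' (traj φ C m) := by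
  induction n with
  | zero => simp [traj_zero]
  | succ n ih =>
    rw [show n + 1 + m = (n + m) + 1 by ring, traj_succ, ih, traj_succ, Set.image_mul, mul_assoc,
      ← Set.image_comp, Function.iterate_succ']

lemma traj_mono_set (φ : G →* G) {C D : Set G} (h : C ⊆ D) (n : ℕ) :
    traj φ C n ⊆ traj φ D n := by
  induction n with
  | zero => simp [traj_zero]
  | succ n ih =>
    rw [traj_succ, traj_succ]
    exact Set.mul_subset_mul h (Set.image_mono ih)

lemma one_mem_traj (φ : G →* G) {C : Set G} (h : (1 : G) ∈ C) (n : ℕ) : (1 : G) ∈ traj φ C n := by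
  induction n with
  | zero => simp [traj_zero]
  | succ n ih =>
    rw [traj_succ]
    exact ⟨1, h, 1, ⟨1, ih, map_one φ⟩, by simp⟩

lemma iterate_one (φ : G →* G) (n : ℕ) : (φ^[n]) (1 : G) = 1 := by
  induction n with
  | zero => rfl
  | succ n ih => rw [Function.iterate_succ_apply', ih, map_one]

lemma traj_subset_succ (φ : G →* G) {C : Set G} (h : (1 : G) ∈ C) (n : ℕ) :
    traj φ C n ⊆ traj φ C (n + 1) := by
  rw [traj_succ']
  intro x hx
  exact ⟨x, hx, 1, ⟨1, h, iterate_one φ n⟩, by simp⟩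

/-- If `C · φ(C) ⊆ C · E` then `T_{n+1}(C) ⊆ C · T_n(E)`. -/
lemma traj_cover (φ : G →* G) {C E : Set G} (h : C * φ '' C ⊆ C * E) (n : ℕ) :
    traj φ C (n + 1) ⊆ C * traj φ E n := by
  induction n with
  | zero =>
    rw [traj_succ, traj_zero, traj_zero]
    simp
  | succ n ih =>
    calc traj φ C (n + 1 + 1) = C * φ '' (traj φ C (n + 1)) := traj_succ φ C (n + 1)
      _ ⊆ C * φ '' (C * traj φ E n) := Set.mul_subset_mul_left (Set.image_mono ih)
      _ = (C * φ '' C) * φ '' (traj φ E n) := by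
          rw [Set.image_mul, ← mul_assoc]
      _ ⊆ (C * E) * φ '' (traj φ E n) := Set.mul_subset_mul_right h
      _ = C * traj φ E (n + 1) := by
          rw [traj_succ, mul_assoc]

lemma mul_traj_subset (φ : G →* G) {A W : Set G} (hW : (1 : G) ∈ W) (n : ℕ) :
    W * traj φ A (n + 1) ⊆ traj φ (W * A) (n + 1) := by
  rw [traj_succ, traj_succ, ← mul_assoc]
  refine Set.mul_subset_mul_left (Set.image_mono (traj_mono_set φ ?_ n))
  intro a ha
  exact ⟨1, hW, a, ha, by simp⟩

lemma image_traj {H : Type*} [Group H] (f : H →* G) (ψ : H →* H) (φ : G →* G)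
    (h : ∀ x, f (ψ x) = φ (f x)) (C : Set H) (n : ℕ) :
    f '' (traj ψ C n) = traj φ (f '' C) n := by
  induction n with
  | zero => rw [traj_zero, traj_zero, Set.image_one, map_one]; rfl
  | succ n ih =>
    rw [traj_succ, traj_succ, Set.image_mul, ← ih]
    congr 1
    rw [← Set.image_comp, ← Set.image_comp]
    apply Set.image_congr
    intro x _
    exact h x

end basic

section top

variable {G : Type*} [Group G] [TopologicalSpace G] [IsTopologicalGroup G]

lemma isCompact_traj (φ : G →* G) (hφ : Continuous φ) {C : Set G} (hC : IsCompact C) (n : ℕ) :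
    IsCompact (traj φ C n) := by
  induction n with
  | zero => rw [traj_zero]; exact isCompact_singleton
  | succ n ih =>
    rw [traj_succ]
    exact hC.mul (ih.image hφ)

omit [TopologicalSpace G] [IsTopologicalGroup G] in
lemma finite_traj (φ : G →* G) {C : Set G} (hC : C.Finite) (n : ℕ) :
    (traj φ C n).Finite := by
  induction n with
  | zero => rw [traj_zero]; exact Set.finite_singleton _
  | succ n ih =>
    rw [traj_succ]
    exact hC.mul (ih.image _)

end top

section packing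

variable {G : Type*} [Group G] [TopologicalSpace G] [IsTopologicalGroup G]
  [T2Space G] [MeasurableSpace G] [BorelSpace G]

lemma measure_mul_singleton (μ : Measure G) [μ.IsMulRightInvariant] (U : Set G) (s : G) :
    μ (U * {s}) = μ U := by
  have : U * {s} = (fun x => x * s⁻¹) ⁻¹' U := by
    ext x
    simp only [Set.mul_singleton, Set.mem_image, Set.mem_preimage]
    constructor
    · rintro ⟨y, hy, rfl⟩
      simpa using hy
    · intro h
      exact ⟨x * s⁻¹, h, by simp⟩
  rw [this, measure_preimage_mul_right]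

/-- Packing versus covering by right translates of a compact neighbourhood. -/
lemma packing (μ : Measure G) [μ.IsMulRightInvariant] [IsFiniteMeasureOnCompacts μ]
    [μ.IsOpenPosMeasure] {E U : Set G} (hE : IsCompact E)
    (hU : IsCompact U) (hU0 : U ∈ 𝓝 (1 : G)) :
    ∃ S : Finset G, (S : Set G) ⊆ E ∧ E ⊆ (U⁻¹ * U) * (S : Set G) ∧
      (S.card : ENNReal) * μ U ≤ μ (U * E) := by
  classical
  have hUm : MeasurableSet U := hU.isClosed.measurableSet
  have hUpos : 0 < μ U := (Measure.measure_pos_of_mem_nhds μ hU0)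
  have hUfin : μ U < ⊤ := hU.measure_lt_top
  have hEUfin : μ (U * E) < ⊤ := (hU.mul hE).measure_lt_top
  let good : Finset G → Prop := fun S =>
    (S : Set G) ⊆ E ∧ (S : Set G).PairwiseDisjoint (fun s => U * {s})
  have hgood : ∀ S, good S → (S.card : ENNReal) * μ U ≤ μ (U * E) := by
    intro S hS
    have h1 : μ (⋃ s ∈ S, U * {s}) = ∑ s ∈ S, μ (U * {s}) := by
      refine measure_biUnion_finset hS.2 fun s _ => ?_
      exact (hU.mul isCompact_singleton).isClosed.measurableSet
    have h2 : ∑ s ∈ S, μ (U * {s}) = (S.card : ENNReal) * μ U := by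
      simp
    rw [← h2, ← h1]
    refine measure_mono ?_
    intro x hx
    simp only [Set.mem_iUnion] at hx
    obtain ⟨s, hs, u, hu, t, ht, rfl⟩ := hx
    rw [Set.mem_singleton_iff] at ht
    subst ht
    exact ⟨u, hu, t, hS.1 hs, rfl⟩
  have hbdd : BddAbove {n : ℕ | ∃ S, good S ∧ S.card = n} := by
    have hfin : μ (U * E) / μ U ≠ ⊤ :=
      (ENNReal.div_lt_top hEUfin.ne hUpos.ne').ne
    obtain ⟨N, hN⟩ := ENNReal.exists_nat_gt hfin
    refine ⟨N, ?_⟩
    rintro n ⟨S, hS, rfl⟩
    have h := hgood S hS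
    have h' : (S.card : ENNReal) ≤ μ (U * E) / μ U := by
      rw [ENNReal.le_div_iff_mul_le (Or.inl hUpos.ne') (Or.inl hUfin.ne)]
      exact h
    have h'' : (S.card : ENNReal) < N := lt_of_le_of_lt h' hN
    exact_mod_cast h''.le
  have hne : {n : ℕ | ∃ S, good S ∧ S.card = n}.Nonempty :=
    ⟨0, ∅, ⟨by simp, by simp⟩, by simp⟩
  obtain ⟨S, hS, hcard⟩ := Nat.sSup_mem hne hbdd
  refine ⟨S, hS.1, ?_, hgood S hS⟩
  intro e he
  by_contra hcon
  have hdisj : ∀ s ∈ S, Disjoint (U * {e}) (U * {s}) := by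
    intro s hs
    rw [Set.disjoint_left]
    rintro x ⟨u, hu, a, ha, hux⟩ ⟨u', hu', b, hb, hux'⟩
    rw [Set.mem_singleton_iff] at ha hb
    subst ha hb
    apply hcon
    refine ⟨u⁻¹ * u', ⟨u⁻¹, Set.inv_mem_inv.mpr hu, u', hu', rfl⟩, b, hs, ?_⟩
    simp only at hux hux' ⊢
    rw [mul_assoc, hux', ← hux, inv_mul_cancel_left]
  have hnotin : e ∉ S := by
    intro heS
    have := hdisj e heS
    rw [disjoint_self] at this
    have h0 : (1 : G) ∈ U := mem_of_mem_nhds hU0
    have : (1 : G) * e ∈ (⊥ : Set G) := by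
      rw [← this]; exact ⟨1, h0, e, rfl, rfl⟩
    simp at this
  have hgood' : good (insert e S) := by
    refine ⟨?_, ?_⟩
    · intro x hx
      rcases Finset.mem_insert.mp (by simpa using hx) with rfl | hx
      · exact he
      · exact hS.1 hx
    · rw [Finset.coe_insert, Set.pairwiseDisjoint_insert]
      exact ⟨hS.2, fun s hs _ => hdisj s hs⟩
  have hle : (insert e S).card ≤ sSup {n : ℕ | ∃ S, good S ∧ S.card = n} :=
    le_csSup hbdd ⟨insert e S, hgood', rfl⟩
  rw [← hcard, Finset.card_insert_of_notMem hnotin] at hle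
  omega

/-- The union of finitely many right translates. -/
lemma measure_mul_finset_le (μ : Measure G) [μ.IsMulRightInvariant] (D : Set G) (S : Finset G) :
    μ (D * (S : Set G)) ≤ (S.card : ENNReal) * μ D := by
  have h : D * (S : Set G) ⊆ ⋃ s ∈ S, D * {s} := by
    rintro x ⟨d, hd, s, hs, rfl⟩
    simp only [Set.mem_iUnion]
    exact ⟨s, hs, d, hd, s, rfl, rfl⟩
  calc μ (D * (S : Set G)) ≤ μ (⋃ s ∈ S, D * {s}) := measure_mono h
    _ ≤ ∑ s ∈ S, μ (D * {s}) := measure_biUnion_finset_le _ _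
    _ = (S.card : ENNReal) * μ D := by simp

end packing

section limsup

lemma limsup_log_le {x y : ℕ → ENNReal} {c : ENNReal} (hc : c ≠ ⊤)
    (h : ∀ n, 1 ≤ n → x n ≤ c * y n) :
    limsup (fun n : ℕ => (((n : ℝ)⁻¹ : ℝ) : EReal) * ENNReal.log (x n)) atTop
      ≤ limsup (fun n : ℕ => (((n : ℝ)⁻¹ : ℝ) : EReal) * ENNReal.log (y n)) atTop := by
  obtain ⟨r, hr1, hcr⟩ : ∃ r : ℝ, 1 ≤ r ∧ c ≤ ENNReal.ofReal r := by
    refine ⟨max 1 c.toReal, le_max_left _ _, ?_⟩
    rw [← ENNReal.ofReal_toReal hc]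
    exact ENNReal.ofReal_le_ofReal (by rw [ENNReal.ofReal_toReal hc]; exact le_max_right _ _)
  have hlog : ENNReal.log (ENNReal.ofReal r) = ((Real.log r : ℝ) : EReal) :=
    ENNReal.log_ofReal_of_pos (by linarith)
  have h1 : ∀ᶠ n : ℕ in atTop, (((n : ℝ)⁻¹ : ℝ) : EReal) * ENNReal.log (x n) ≤
      (fun n : ℕ => (((n : ℝ)⁻¹ * Real.log r : ℝ) : EReal)) n +
        (fun n : ℕ => (((n : ℝ)⁻¹ : ℝ) : EReal) * ENNReal.log (y n)) n := by
    filter_upwards [eventually_ge_atTop 1] with n hn
    have h2 : ENNReal.log (x n) ≤ ((Real.log r : ℝ) : EReal) + ENNReal.log (y n) := by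
      rw [← hlog, ← ENNReal.log_mul_add]
      exact ENNReal.log_le_log ((h n hn).trans (mul_le_mul_left hcr _))
    have h3 : (0 : EReal) ≤ (((n : ℝ)⁻¹ : ℝ) : EReal) := by
      exact_mod_cast inv_nonneg.mpr (Nat.cast_nonneg n)
    calc (((n : ℝ)⁻¹ : ℝ) : EReal) * ENNReal.log (x n)
        ≤ (((n : ℝ)⁻¹ : ℝ) : EReal) * (((Real.log r : ℝ) : EReal) + ENNReal.log (y n)) :=
          mul_le_mul_of_nonneg_left h2 h3
      _ = _ := by
          rw [EReal.left_distrib_of_nonneg_of_ne_top h3 (EReal.coe_ne_top _)]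
          simp only [EReal.coe_mul]
  have hlim : limsup (fun n : ℕ => (((n : ℝ)⁻¹ * Real.log r : ℝ) : EReal)) atTop = 0 := by
    apply Tendsto.limsup_eq
    have : Tendsto (fun n : ℕ => (n : ℝ)⁻¹ * Real.log r) atTop (𝓝 (0 * Real.log r)) :=
      (tendsto_inv_atTop_nhds_zero_nat).mul_const _
    rw [zero_mul] at this
    exact_mod_cast (continuous_coe_real_ereal.tendsto 0).comp this
  calc _ ≤ limsup ((fun n : ℕ => (((n : ℝ)⁻¹ * Real.log r : ℝ) : EReal)) +
        (fun n : ℕ => (((n : ℝ)⁻¹ : ℝ) : EReal) * ENNReal.log (y n))) atTop :=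
        limsup_le_limsup h1
    _ ≤ limsup (fun n : ℕ => (((n : ℝ)⁻¹ * Real.log r : ℝ) : EReal)) atTop +
        limsup (fun n : ℕ => (((n : ℝ)⁻¹ : ℝ) : EReal) * ENNReal.log (y n)) atTop := by
        apply EReal.limsup_add_le
        · left; rw [hlim]; exact EReal.zero_ne_bot
        · left; rw [hlim]; exact EReal.zero_ne_top
    _ = _ := by rw [hlim, zero_add]

end limsup

section main

variable {G : Type*} [Group G] [TopologicalSpace G] [IsTopologicalGroup G]
  [LocallyCompactSpace G] [T2Space G] [MeasurableSpace G] [BorelSpace G]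

omit [LocallyCompactSpace G] [T2Space G] [MeasurableSpace G] [BorelSpace G] in
/-- A compact set is covered by finitely many right translates, by elements of a dense set, of a
neighbourhood of `1`. -/
lemma exists_cover {A C : Set G} (hA : IsCompact A) (hC0 : C ∈ 𝓝 (1 : G)) {X : Set G}
    (hX : Dense X) : ∃ E : Finset G, (E : Set G) ⊆ X ∧ A ⊆ C * (E : Set G) := by
  classical
  have hcov : A ⊆ ⋃ x : X, ((fun g : G => g * (x : G)⁻¹) ⁻¹' (interior C)) := by
    intro y _
    simp only [Set.mem_iUnion, Set.mem_preimage]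
    have hopen : IsOpen ((fun x : G => y * x⁻¹) ⁻¹' (interior C)) :=
      isOpen_interior.preimage (continuous_const.mul continuous_inv)
    obtain ⟨x, hx, hxX⟩ := hX.exists_mem_open hopen
      ⟨y, by simpa using mem_interior_iff_mem_nhds.mpr hC0⟩
    exact ⟨⟨x, hx⟩, hxX⟩
  obtain ⟨E, hE⟩ := hA.elim_finite_subcover
    (fun x : X => ((fun g : G => g * (x : G)⁻¹) ⁻¹' (interior C)))
    (fun x => isOpen_interior.preimage (continuous_id.mul continuous_const)) hcov
  refine ⟨E.image (fun x : X => (x : G)), ?_, ?_⟩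
  · intro x hx
    simp only [Finset.coe_image, Set.mem_image, Finset.mem_coe] at hx
    obtain ⟨x', _, rfl⟩ := hx
    exact x'.2
  · intro y hy
    have := hE hy
    simp only [Set.mem_iUnion, Set.mem_preimage, exists_prop] at this
    obtain ⟨x, hx, hyx⟩ := this
    refine ⟨y * (x : G)⁻¹, interior_subset hyx, x, ?_, by simp⟩
    simp only [Finset.coe_image, Set.mem_image, Finset.mem_coe]
    exact ⟨x, hx, rfl⟩

omit [LocallyCompactSpace G] [T2Space G] [MeasurableSpace G] [BorelSpace G] in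
/-- A compact set is covered by finitely many left translates of a neighbourhood of `1`. -/
lemma exists_cover_left {A C : Set G} (hA : IsCompact A) (hC0 : C ∈ 𝓝 (1 : G)) :
    ∃ E : Finset G, A ⊆ (E : Set G) * C := by
  classical
  obtain ⟨E, -, hE⟩ := exists_cover (C := C⁻¹) hA.inv (inv_mem_nhds_one G hC0) dense_univ
  refine ⟨E.image (fun x => x⁻¹), ?_⟩
  intro a ha
  obtain ⟨c, hc, e, he, hce⟩ := hE (Set.inv_mem_inv.mpr ha)
  refine ⟨e⁻¹, by simpa using he, c⁻¹, hc, ?_⟩
  simp only at hce ⊢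
  rw [← mul_inv_rev, hce, inv_inv]

/-- Left translation changes a right Haar measure at most by a finite factor on compact sets. -/
lemma left_translate (μ : Measure G) [μ.IsMulRightInvariant] [IsFiniteMeasureOnCompacts μ]
    [μ.IsOpenPosMeasure] (g : G) :
    ∃ k : ENNReal, k ≠ ⊤ ∧ ∀ A : Set G, IsCompact A → μ ({g} * A) ≤ k * μ A := by
  let ν : Measure G := Measure.map (fun x => g⁻¹ * x) μ
  have : ν.IsMulRightInvariant := inferInstance
  have : IsFiniteMeasureOnCompacts ν :=
    Measure.IsFiniteMeasureOnCompacts.map μ (Homeomorph.mulLeft g⁻¹)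
  have : (μ.inv).IsHaarMeasure := { }
  refine ⟨(Measure.haarScalarFactor ν.inv μ.inv : ENNReal), ENNReal.coe_ne_top, ?_⟩
  intro A hA
  have h1 : μ ({g} * A) = ν.inv A⁻¹ := by
    rw [Measure.inv_apply, inv_inv]
    have : (fun x => g⁻¹ * x) ⁻¹' A = {g} * A := by
      ext x
      simp only [Set.mem_preimage, Set.singleton_mul, Set.mem_image]
      constructor
      · intro h
        exact ⟨g⁻¹ * x, h, by simp⟩
      · rintro ⟨y, hy, rfl⟩
        simpa using hy
    rw [← this]
    exact (Measure.map_apply (measurable_const_mul _) hA.isClosed.measurableSet).symm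
  have h2 : μ A = μ.inv A⁻¹ := by rw [Measure.inv_apply, inv_inv]
  rw [h1, h2]
  have := Measure.measure_isMulInvariant_eq_smul_of_isCompact_closure ν.inv μ.inv
    (s := A⁻¹) (by rw [hA.inv.isClosed.closure_eq]; exact hA.inv)
  rw [this]
  exact le_of_eq rfl

/-- **Weak submultiplicativity of the measures of trajectories.** -/
lemma submult (μ : Measure G) [μ.IsMulRightInvariant] [IsFiniteMeasureOnCompacts μ]
    [μ.IsOpenPosMeasure] (φ : G →* G) (hφ : Continuous φ) {C : Set G} (hC : IsCompact C)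
    (hC0 : C ∈ 𝓝 (1 : G)) :
    ∃ c : ENNReal, c ≠ ⊤ ∧ ∀ n m : ℕ,
      μ (traj φ C (n + (m + 1))) ≤ c * μ (traj φ C (n + 1)) * μ (traj φ C (m + 1)) := by
  classical
  obtain ⟨V, hV, hVC⟩ : ∃ V ∈ 𝓝 (1 : G), ∀ v ∈ V, ∀ w ∈ V, v⁻¹ * w ∈ C := by
    have h1 : ContinuousAt (fun p : G × G => p.1⁻¹ * p.2) (1, 1) :=
      (continuous_fst.inv.mul continuous_snd).continuousAt
    have h2 : (fun p : G × G => p.1⁻¹ * p.2) ⁻¹' C ∈ 𝓝 ((1 : G), (1 : G)) := by
      apply h1
      simpa using hC0
    rw [nhds_prod_eq, Filter.mem_prod_same_iff] at h2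
    obtain ⟨V, hV, hVC⟩ := h2
    exact ⟨V, hV, fun v hv w hw => hVC (Set.mk_mem_prod hv hw)⟩
  obtain ⟨U, hU0, hUV, hU⟩ := local_compact_nhds hV
  have hUU : U⁻¹ * U ⊆ C := by
    rintro x ⟨a, ha, b, hb, rfl⟩
    have := hVC a⁻¹ (hUV ha) b (hUV hb)
    simpa using this
  obtain ⟨F, hF⟩ := exists_cover_left (A := U * C) (hU.mul hC) hC0
  choose k hk hkA using fun g => left_translate μ g
  have hUpos : μ U ≠ 0 := (Measure.measure_pos_of_mem_nhds μ hU0).ne'
  have hUfin : μ U ≠ ⊤ := hU.measure_lt_top.ne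
  refine ⟨(∑ f ∈ F, k f) / μ U, ENNReal.div_ne_top (by simp [hk]) hUpos, ?_⟩
  intro n m
  have hT : IsCompact (traj φ C (m + 1)) := isCompact_traj φ hφ hC _
  obtain ⟨S, hSE, hES, hcard⟩ := packing μ hT hU hU0
  have h1 : μ (U * traj φ C (m + 1)) ≤ (∑ f ∈ F, k f) * μ (traj φ C (m + 1)) := by
    have h2 : U * traj φ C (m + 1) ⊆ ⋃ f ∈ F, {f} * traj φ C (m + 1) := by
      rw [traj_succ, ← mul_assoc]
      rintro x ⟨y, hy, z, hz, rfl⟩
      obtain ⟨f, hf, c, hc, rfl⟩ := hF hy
      simp only [Set.mem_iUnion]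
      refine ⟨f, hf, f, rfl, c * z, ⟨c, hc, z, hz, rfl⟩, ?_⟩
      simp [mul_assoc]
    calc μ (U * traj φ C (m + 1)) ≤ μ (⋃ f ∈ F, {f} * traj φ C (m + 1)) := measure_mono h2
      _ ≤ ∑ f ∈ F, μ ({f} * traj φ C (m + 1)) := measure_biUnion_finset_le _ _
      _ ≤ ∑ f ∈ F, k f * μ (traj φ C (m + 1)) :=
          Finset.sum_le_sum fun f _ => hkA f _ hT
      _ = _ := by rw [Finset.sum_mul]
  have h3 : (S.card : ENNReal) ≤ (∑ f ∈ F, k f) / μ U * μ (traj φ C (m + 1)) := by
    have h4 : (S.card : ENNReal) ≤ (∑ f ∈ F, k f) * μ (traj φ C (m + 1)) / μ U := by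
      rw [ENNReal.le_div_iff_mul_le (Or.inl hUpos) (Or.inl hUfin)]
      exact hcard.trans h1
    refine h4.trans (le_of_eq ?_)
    rw [ENNReal.div_eq_inv_mul, ENNReal.div_eq_inv_mul, mul_assoc]
  have h5 : traj φ C (n + (m + 1)) ⊆
      traj φ C (n + 1) * ((S.image (φ^[n]) : Finset G) : Set G) := by
    rw [traj_add, traj_succ' φ C n, mul_assoc]
    refine Set.mul_subset_mul_left ?_
    rintro x ⟨y, hy, rfl⟩
    obtain ⟨u, hu, s, hs, rfl⟩ := hES hy
    have hiter : ∀ a b : G, (φ^[n]) (a * b) = (φ^[n]) a * (φ^[n]) b := by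
      intro a b
      exact iterate_map_mul φ n a b
    refine ⟨(φ^[n]) u, ⟨u, hUU hu, rfl⟩, (φ^[n]) s, ?_, (hiter u s).symm⟩
    simp only [Finset.coe_image, Set.mem_image, Finset.mem_coe]
    exact ⟨s, hs, rfl⟩
  calc μ (traj φ C (n + (m + 1)))
      ≤ μ (traj φ C (n + 1) * ((S.image (φ^[n]) : Finset G) : Set G)) := measure_mono h5
    _ ≤ ((S.image (φ^[n])).card : ENNReal) * μ (traj φ C (n + 1)) :=
        measure_mul_finset_le μ _ _
    _ ≤ (S.card : ENNReal) * μ (traj φ C (n + 1)) := by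
        have : ((S.image (φ^[n])).card : ENNReal) ≤ (S.card : ENNReal) := by
          exact_mod_cast Finset.card_image_le
        exact mul_le_mul_left this _
    _ ≤ ((∑ f ∈ F, k f) / μ U * μ (traj φ C (m + 1))) * μ (traj φ C (n + 1)) := by
        gcongr
    _ = _ := by ring

/-- The limit defining `H_A(φ, C)` exists and is finite. -/
lemma limit_exists (μ : Measure G) [μ.IsMulRightInvariant] [IsFiniteMeasureOnCompacts μ]
    [μ.IsOpenPosMeasure] (φ : G →* G) (hφ : Continuous φ) {C : Set G} (hC : IsCompact C)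
    (hC0 : C ∈ 𝓝 (1 : G)) :
    ∃ l : ℝ, 0 ≤ l ∧ HA μ φ C = (l : EReal) ∧
      Tendsto (fun n : ℕ => Real.log (μ (traj φ C n)).toReal / n) atTop (𝓝 l) := by
  obtain ⟨c, hc, hsub⟩ := submult μ φ hφ hC hC0
  have h1C : (1 : G) ∈ C := mem_of_mem_nhds hC0
  have hfin : ∀ n, μ (traj φ C n) ≠ ⊤ := fun n => (isCompact_traj φ hφ hC n).measure_lt_top.ne
  have hCpos : μ C ≠ 0 := (Measure.measure_pos_of_mem_nhds μ hC0).ne'
  have hCfin : μ C ≠ ⊤ := hC.measure_lt_top.ne
  have hsubs : ∀ n, C ⊆ traj φ C (n + 1) := by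
    intro n
    rw [traj_succ]
    intro x hx
    exact ⟨x, hx, 1, ⟨1, one_mem_traj φ h1C n, map_one φ⟩, by simp⟩
  have hpos : ∀ n, μ (traj φ C (n + 1)) ≠ 0 := fun n h =>
    hCpos (measure_mono_null (hsubs n) h)
  set a : ℕ → ℝ := fun n => (μ (traj φ C (n + 1))).toReal with ha
  have hapos : ∀ n, 0 < a n := fun n => ENNReal.toReal_pos (hpos n) (hfin _)
  have haC : ∀ n, (μ C).toReal ≤ a n := fun n =>
    ENNReal.toReal_mono (hfin _) (measure_mono (hsubs n))
  have hCr : 0 < (μ C).toReal := ENNReal.toReal_pos hCpos hCfin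
  set r : ℝ := max 1 c.toReal with hr
  have hr1 : 1 ≤ r := le_max_left _ _
  have hrc : c.toReal ≤ r := le_max_right _ _
  have hsubR : ∀ n m, a (n + m) ≤ r * a n * a m := by
    intro n m
    have h := ENNReal.toReal_mono (by
      exact ENNReal.mul_ne_top (ENNReal.mul_ne_top hc (hfin _)) (hfin _)) (hsub n m)
    rw [ENNReal.toReal_mul, ENNReal.toReal_mul] at h
    calc a (n + m) ≤ c.toReal * a n * a m := h
      _ ≤ r * a n * a m := by
        have h1 := (hapos n).le
        have h2 := (hapos m).le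
        gcongr
  set u : ℕ → ℝ := fun n => Real.log (r * a n) with hu
  have hrpos : 0 < r := by linarith
  have husub : Subadditive u := by
    intro n m
    simp only [hu]
    rw [← Real.log_mul (mul_pos hrpos (hapos n)).ne' (mul_pos hrpos (hapos m)).ne']
    apply Real.log_le_log (mul_pos hrpos (hapos _))
    calc r * a (n + m) ≤ r * (r * a n * a m) := by gcongr; exact hsubR n m
      _ = r * a n * (r * a m) := by ring
  have hubdd : BddBelow (Set.range fun n => u n / n) := by
    refine ⟨-|Real.log (μ C).toReal|, ?_⟩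
    rintro _ ⟨n, rfl⟩
    simp only
    rcases Nat.eq_zero_or_pos n with rfl | hn
    · simp
    · have hn' : (1 : ℝ) ≤ n := by exact_mod_cast hn
      have h1 : Real.log (μ C).toReal ≤ u n := by
        apply Real.log_le_log hCr
        calc (μ C).toReal ≤ a n := haC n
          _ = 1 * a n := (one_mul _).symm
          _ ≤ r * a n := by
            have := (hapos n).le
            gcongr
      have h2 : -|Real.log (μ C).toReal| ≤ u n := (neg_abs_le _).trans h1
      rw [le_div_iff₀ (by linarith)]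
      rcases le_or_gt 0 (u n) with h | h
      · have : 0 ≤ |Real.log (μ C).toReal| := abs_nonneg _
        nlinarith
      · have : 0 ≤ |Real.log (μ C).toReal| := abs_nonneg _
        nlinarith
  have hlim := husub.tendsto_lim hubdd
  set l := husub.lim with hl
  -- transfer to the original sequence
  have hconst : Tendsto (fun n : ℕ => Real.log r / (n : ℝ)) atTop (𝓝 0) :=
    tendsto_const_div_atTop_nhds_zero_nat _
  have h1 : Tendsto (fun n : ℕ => Real.log (a n) / n) atTop (𝓝 l) := by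
    have h := hlim.sub hconst
    rw [sub_zero] at h
    refine h.congr fun n => ?_
    simp only [hu]
    rw [Real.log_mul hrpos.ne' (hapos n).ne']
    ring
  have hratio : Tendsto (fun n : ℕ => (n : ℝ) / ((n : ℝ) + 1)) atTop (𝓝 1) :=
    tendsto_natCast_div_add_atTop 1
  have h2 : Tendsto (fun n : ℕ => Real.log (μ (traj φ C (n + 1))).toReal / ((n + 1 : ℕ) : ℝ))
      atTop (𝓝 l) := by
    have h := h1.mul hratio
    rw [mul_one] at h
    refine h.congr' ?_
    filter_upwards [eventually_ge_atTop 1] with n hn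
    have hn' : (0 : ℝ) < n := by exact_mod_cast hn
    simp only [ha]
    push_cast
    field_simp
  have h3 : Tendsto (fun n : ℕ => Real.log (μ (traj φ C n)).toReal / n) atTop (𝓝 l) :=
    (tendsto_add_atTop_iff_nat (f := fun n : ℕ => Real.log (μ (traj φ C n)).toReal / n) 1).mp h2
  have hl0 : 0 ≤ l := by
    have h4 : Tendsto (fun n : ℕ => Real.log (μ C).toReal / (n : ℝ)) atTop (𝓝 0) :=
      tendsto_const_div_atTop_nhds_zero_nat _
    refine le_of_tendsto_of_tendsto h4 h1 (Eventually.of_forall fun n => ?_)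
    simp only
    exact div_le_div_of_nonneg_right (Real.log_le_log hCr (haC n)) (Nat.cast_nonneg n)
  refine ⟨l, hl0, ?_, h3⟩
  unfold HA
  apply Tendsto.limsup_eq
  have h5 : Tendsto (fun n : ℕ => ((Real.log (μ (traj φ C n)).toReal / n : ℝ) : EReal)) atTop
      (𝓝 (l : EReal)) := (continuous_coe_real_ereal.tendsto l).comp h3
  refine h5.congr' ?_
  filter_upwards [eventually_ge_atTop 1] with n hn
  obtain ⟨m, rfl⟩ : ∃ m, n = m + 1 := ⟨n - 1, by omega⟩
  rw [ENNReal.log_pos_real (hpos m) (hfin _), ← EReal.coe_mul]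
  congr 1
  rw [div_eq_inv_mul]

/-- Monotonicity: an equivariant proper homomorphism does not decrease the entropy. -/
lemma hA_le_of_proper {H : Type*} [Group H] [TopologicalSpace H] [IsTopologicalGroup H]
    [LocallyCompactSpace H] [T2Space H] [MeasurableSpace H] [BorelSpace H]
    (μ : Measure G) [μ.IsMulRightInvariant] [IsFiniteMeasureOnCompacts μ]
    [μ.IsOpenPosMeasure] (φ : G →* G)
    (ν : Measure H) [ν.IsMulRightInvariant] [IsFiniteMeasureOnCompacts ν]
    (ψ : H →* H) (hψ : Continuous ψ) (f : H →* G) (hf : IsProperMap f)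
    (heq : ∀ x, f (ψ x) = φ (f x)) :
    hA ν ψ ≤ hA μ φ := by
  classical
  unfold hA
  refine iSup₂_le ?_
  rintro C ⟨hC, hC0⟩
  obtain ⟨W, hWc, hW0⟩ := exists_compact_mem_nhds (1 : G)
  have h0W : (1 : G) ∈ W := mem_of_mem_nhds hW0
  have h0C : (1 : H) ∈ C := mem_of_mem_nhds hC0
  have hCc : IsCompact (f '' C) := hC.image hf.continuous
  let C' : Set G := W * f '' C
  have hC'c : IsCompact C' := hWc.mul hCc
  have hC'0 : C' ∈ 𝓝 (1 : G) := by
    refine mem_of_superset hW0 ?_
    intro w hw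
    exact ⟨w, hw, 1, ⟨1, h0C, map_one _⟩, by simp⟩
  refine le_trans ?_ (le_iSup₂ (f := fun (C : Set G) (_ : IsCompact C ∧ C ∈ 𝓝 (1 : G)) =>
    HA μ φ C) C' ⟨hC'c, hC'0⟩)
  unfold HA
  have hWpos : μ W ≠ 0 := (Measure.measure_pos_of_mem_nhds μ hW0).ne'
  have hWfin : μ W ≠ ⊤ := hWc.measure_lt_top.ne
  let D : Set H := f ⁻¹' (W⁻¹ * W)
  have hDc : IsCompact D := hf.isCompact_preimage (hWc.inv.mul hWc)
  have hDfin : ν D ≠ ⊤ := hDc.measure_lt_top.ne
  refine limsup_log_le (c := ν D / μ W) (ENNReal.div_ne_top hDfin hWpos) ?_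
  intro n hn
  obtain ⟨m, rfl⟩ : ∃ m, n = m + 1 := ⟨n - 1, by omega⟩
  have hT : IsCompact (traj ψ C (m + 1)) := isCompact_traj ψ hψ hC _
  obtain ⟨S, hSE, hES, hcard⟩ := packing μ (hT.image hf.continuous) hWc hW0
  have hsub : W * f '' (traj ψ C (m + 1)) ⊆ traj φ C' (m + 1) := by
    rw [image_traj f ψ φ heq]
    exact mul_traj_subset φ h0W m
  have h1 : traj ψ C (m + 1) ⊆ ⋃ s ∈ S, f ⁻¹' ((W⁻¹ * W) * {s}) := by
    intro x hx
    obtain ⟨d, hd, s, hs, hsd⟩ := hES ⟨x, hx, rfl⟩
    simp only [Set.mem_iUnion]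
    exact ⟨s, hs, d, hd, s, rfl, hsd⟩
  have h2 : ∀ s ∈ S, ν (f ⁻¹' ((W⁻¹ * W) * {s})) = ν D := by
    intro s hs
    obtain ⟨s', _, rfl⟩ := hSE hs
    have : f ⁻¹' ((W⁻¹ * W) * {f s'}) = D * {s'} := by
      ext x
      constructor
      · rintro ⟨d, hd, t, ht, hx⟩
        rw [Set.mem_singleton_iff] at ht
        subst ht
        refine ⟨x * s'⁻¹, ?_, s', rfl, by simp⟩
        show f (x * s'⁻¹) ∈ W⁻¹ * W
        simp only at hx
        rw [map_mul, map_inv, ← hx, mul_inv_cancel_right]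
        exact hd
      · rintro ⟨d, hd, t, ht, rfl⟩
        rw [Set.mem_singleton_iff] at ht
        subst ht
        exact ⟨f d, hd, f t, rfl, by simp⟩
    rw [this, measure_mul_singleton]
  have h3 : ν (traj ψ C (m + 1)) ≤ (S.card : ENNReal) * ν D := by
    calc ν (traj ψ C (m + 1))
        ≤ ν (⋃ s ∈ S, f ⁻¹' ((W⁻¹ * W) * {s})) := measure_mono h1
      _ ≤ ∑ s ∈ S, ν (f ⁻¹' ((W⁻¹ * W) * {s})) := measure_biUnion_finset_le _ _
      _ = (S.card : ENNReal) * ν D := by
          rw [Finset.sum_congr rfl h2]; simp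
  calc ν (traj ψ C (m + 1)) ≤ (S.card : ENNReal) * ν D := h3
    _ = (ν D / μ W) * ((S.card : ENNReal) * μ W) := by
        rw [ENNReal.div_eq_inv_mul, mul_comm (S.card : ENNReal) (μ W), ← mul_assoc,
          mul_assoc _ (ν D), mul_comm (ν D), ← mul_assoc, ENNReal.inv_mul_cancel hWpos hWfin,
          one_mul, mul_comm]
    _ ≤ (ν D / μ W) * μ (W * f '' (traj ψ C (m + 1))) :=
        mul_le_mul_right hcard _
    _ ≤ (ν D / μ W) * μ (traj φ C' (m + 1)) :=
        mul_le_mul_right (measure_mono hsub) _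

omit [LocallyCompactSpace G] in
/-- The essential step: `H_A(φ, C)` is dominated by the entropy of any flow `H` with an
equivariant homomorphism to `G` whose image contains a suitable finite set. -/
lemma HA_le_of_mem {H : Type*} [Group H] [TopologicalSpace H] [IsTopologicalGroup H]
    [LocallyCompactSpace H] [T2Space H] [MeasurableSpace H] [BorelSpace H]
    (μ : Measure G) [μ.IsMulRightInvariant] [IsFiniteMeasureOnCompacts μ]
    (φ : G →* G)
    (ν : Measure H) [ν.IsMulRightInvariant] [IsFiniteMeasureOnCompacts ν] [ν.IsOpenPosMeasure]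
    (ψ : H →* H) (f : H →* G) (hf : Continuous f)
    (heq : ∀ x, f (ψ x) = φ (f x))
    {C : Set G} (hC : IsCompact C) (hC0 : C ∈ 𝓝 (1 : G)) (E : Finset G)
    (hE : C * φ '' C ⊆ C * (E : Set G)) (hi : (E : Set G) ⊆ f.range) :
    HA μ φ C ≤ hA ν ψ := by
  classical
  have h0C : (1 : G) ∈ C := mem_of_mem_nhds hC0
  obtain ⟨E₁, hE₁⟩ : ∃ E₁ : Finset H, (E : Set G) ⊆ f '' (E₁ : Set H) := by
    choose g hg using fun e : (E : Set G) => MonoidHom.mem_range.mp (hi e.2)
    refine ⟨Finset.univ.image g, ?_⟩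
    intro e he
    exact ⟨g ⟨e, he⟩, by simp, hg ⟨e, he⟩⟩
  let E₀ : Set H := (E₁ : Set H) ∪ {1}
  have hE₀fin : E₀.Finite := Set.Finite.union E₁.finite_toSet (Set.finite_singleton _)
  have hE₀0 : (1 : H) ∈ E₀ := Or.inr rfl
  have hEE₀ : (E : Set G) ⊆ f '' E₀ := hE₁.trans (Set.image_mono Set.subset_union_left)
  obtain ⟨U, hU0, hUC, hUc⟩ : ∃ U ∈ 𝓝 (1 : H), U ⊆ f ⁻¹' C ∧ IsCompact U := by
    apply local_compact_nhds
    apply hf.continuousAt
    rw [map_one]
    exact hC0
  have hUz : (1 : H) ∈ U := mem_of_mem_nhds hU0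
  let C' : Set H := U * E₀
  have hC'c : IsCompact C' := hUc.mul hE₀fin.isCompact
  have hC'0 : C' ∈ 𝓝 (1 : H) := by
    refine mem_of_superset hU0 ?_
    intro u hu
    exact ⟨u, hu, 1, hE₀0, by simp⟩
  refine le_trans ?_ (le_iSup₂ (f := fun (C : Set H) (_ : IsCompact C ∧ C ∈ 𝓝 (1 : H)) =>
    HA ν ψ C) C' ⟨hC'c, hC'0⟩)
  unfold HA
  have hUpos : ν U ≠ 0 := (Measure.measure_pos_of_mem_nhds ν hU0).ne'
  have hUfin : ν U ≠ ⊤ := hUc.measure_lt_top.ne
  let D : Set G := C * (C⁻¹ * C)
  have hDc : IsCompact D := hC.mul (hC.inv.mul hC)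
  have hDfin : μ D ≠ ⊤ := hDc.measure_lt_top.ne
  refine limsup_log_le (c := μ D / ν U) (ENNReal.div_ne_top hDfin hUpos) ?_
  intro n hn
  obtain ⟨m, rfl⟩ : ∃ m, n = m + 1 := ⟨n - 1, by omega⟩
  have hTfin : (traj ψ E₀ (m + 1)).Finite := finite_traj ψ hE₀fin _
  obtain ⟨S, hSE, hES, hcard⟩ := packing ν hTfin.isCompact hUc hU0
  have hsub : U * traj ψ E₀ (m + 1) ⊆ traj ψ C' (m + 1) := mul_traj_subset ψ hUz m
  have h1 : traj φ C (m + 1) ⊆ D * ((S.image f : Finset G) : Set G) := by
    intro x hx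
    have hx1 := traj_cover φ hE (m + 1) (traj_subset_succ φ h0C (m + 1) hx)
    obtain ⟨c, hc, y, hy, rfl⟩ := hx1
    have hy1 : y ∈ f '' (traj ψ E₀ (m + 1)) := by
      rw [image_traj f ψ φ heq]
      exact traj_mono_set φ hEE₀ _ hy
    obtain ⟨z, hz, rfl⟩ := hy1
    obtain ⟨d, ⟨u, hu, v, hv, rfl⟩, s, hs, rfl⟩ := hES hz
    refine ⟨c * ((f u) * (f v)), ⟨c, hc, _, ⟨_, ?_, _, hUC hv, rfl⟩, rfl⟩, f s, ?_, ?_⟩
    · have := hUC hu
      rw [Set.mem_preimage, map_inv] at this
      exact this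
    · simp only [Finset.coe_image, Set.mem_image, Finset.mem_coe]
      exact ⟨s, hs, rfl⟩
    · simp [mul_assoc]
  calc μ (traj φ C (m + 1)) ≤ μ (D * ((S.image f : Finset G) : Set G)) := measure_mono h1
    _ ≤ ((S.image f).card : ENNReal) * μ D := measure_mul_finset_le μ _ _
    _ ≤ (S.card : ENNReal) * μ D := by
        have : ((S.image f).card : ENNReal) ≤ (S.card : ENNReal) := by
          exact_mod_cast Finset.card_image_le
        exact mul_le_mul_left this _
    _ = (μ D / ν U) * ((S.card : ENNReal) * ν U) := by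
        rw [ENNReal.div_eq_inv_mul, mul_comm (S.card : ENNReal) (ν U), ← mul_assoc,
          mul_assoc _ (μ D), mul_comm (μ D), ← mul_assoc, ENNReal.inv_mul_cancel hUpos hUfin,
          one_mul, mul_comm]
    _ ≤ (μ D / ν U) * ν (U * traj ψ E₀ (m + 1)) :=
        mul_le_mul_right hcard _
    _ ≤ (μ D / ν U) * ν (traj ψ C' (m + 1)) :=
        mul_le_mul_right (measure_mono hsub) _

omit [TopologicalSpace G] [IsTopologicalGroup G] [LocallyCompactSpace G] [T2Space G]
  [MeasurableSpace G] [BorelSpace G] in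
/-- A finite subset of a directed union of subgroups lies in a member. -/
lemma exists_mem_of_directed {I : Type*} (R : I → Subgroup G) (hdir : Directed (· ≤ ·) R)
    (hne : Nonempty I) (F : Finset G) (hF : (F : Set G) ⊆ ⋃ i, (R i : Set G)) :
    ∃ i, (F : Set G) ⊆ R i := by
  classical
  induction F using Finset.induction_on with
  | empty => exact ⟨hne.some, by simp⟩
  | insert a s _ ih =>
    rw [Finset.coe_insert, Set.insert_subset_iff] at hF
    obtain ⟨i, hi⟩ := ih hF.2
    have ha := hF.1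
    simp only [Set.mem_iUnion] at ha
    obtain ⟨j, hj⟩ := ha
    obtain ⟨k, hik, hjk⟩ := hdir i j
    refine ⟨k, ?_⟩
    intro x hx
    rw [Finset.coe_insert, Set.mem_insert_iff] at hx
    rcases hx with rfl | hx
    · exact hjk hj
    · exact hik (hi hx)

omit [LocallyCompactSpace G] in
/-- Upper semicontinuity along arbitrary equivariant homomorphisms. -/
lemma hA_le_iSup {I : Type*} (H : I → Type*) [∀ i, Group (H i)]
    [∀ i, TopologicalSpace (H i)] [∀ i, IsTopologicalGroup (H i)]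
    [∀ i, LocallyCompactSpace (H i)] [∀ i, T2Space (H i)] [∀ i, MeasurableSpace (H i)]
    [∀ i, BorelSpace (H i)]
    (μ : Measure G) [μ.IsMulRightInvariant] [IsFiniteMeasureOnCompacts μ]
    (φ : G →* G) (hφ : Continuous φ)
    (ν : ∀ i, Measure (H i)) [∀ i, (ν i).IsMulRightInvariant]
    [∀ i, IsFiniteMeasureOnCompacts (ν i)] [∀ i, (ν i).IsOpenPosMeasure]
    (ψ : ∀ i, H i →* H i) (f : ∀ i, H i →* G) (hf : ∀ i, Continuous (f i))
    (heq : ∀ i x, f i (ψ i x) = φ (f i x))
    (hdir : Directed (· ≤ ·) fun i => (f i).range)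
    (hdense : Dense (⋃ i, ((f i).range : Set G))) :
    hA μ φ ≤ ⨆ i, hA (ν i) (ψ i) := by
  unfold hA
  refine iSup₂_le ?_
  rintro C ⟨hC, hC0⟩
  have hne : Nonempty I := by
    obtain ⟨x, hx⟩ := hdense.nonempty
    simp only [Set.mem_iUnion] at hx
    exact ⟨hx.choose⟩
  obtain ⟨E, hEX, hE⟩ := exists_cover (hC.mul (hC.image hφ)) hC0 hdense
  obtain ⟨i, hi⟩ := exists_mem_of_directed (fun i => (f i).range) hdir hne E hEX
  exact (HA_le_of_mem μ φ (ν i) (ψ i) (f i) (hf i) (heq i) hC hC0 E hE hi).trans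
    (le_iSup (fun i => hA (ν i) (ψ i)) i)

end main

/-- The restriction of `φ` to a `φ`-invariant subgroup `K`. -/
def restr {G : Type*} [Group G] (φ : G →* G) (K : Subgroup G)
    (h : ∀ x ∈ K, φ x ∈ K) : K →* K :=
  (φ.comp K.subtype).codRestrict K (fun x => h x x.2)

/-- The closed subgroup topologically generated by the orbits `φ^n(x)`, `x ∈ F`, `n ≥ 0`. -/
def orbitSubgroup {G : Type*} [Group G] [TopologicalSpace G] [IsTopologicalGroup G]
    (φ : G →* G) (F : Set G) : Subgroup G :=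
  (Subgroup.closure (⋃ n : ℕ, (φ^[n]) '' F)).topologicalClosure

lemma orbitSubgroup_invariant {G : Type*} [Group G] [TopologicalSpace G] [IsTopologicalGroup G]
    (φ : G →* G) (hφ : Continuous φ) (F : Set G) :
    ∀ x ∈ orbitSubgroup φ F, φ x ∈ orbitSubgroup φ F := by
  intro x hx
  have h1 : ∀ y ∈ Subgroup.closure (⋃ n : ℕ, (φ^[n]) '' F),
      φ y ∈ Subgroup.closure (⋃ n : ℕ, (φ^[n]) '' F) := by
    intro y hy
    have h2 : Subgroup.closure (⋃ n : ℕ, (φ^[n]) '' F) ≤
        (Subgroup.closure (⋃ n : ℕ, (φ^[n]) '' F)).comap φ := by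
      rw [Subgroup.closure_le]
      intro z hz
      simp only [Set.mem_iUnion] at hz
      obtain ⟨n, w, hw, rfl⟩ := hz
      rw [SetLike.mem_coe, Subgroup.mem_comap]
      apply Subgroup.subset_closure
      simp only [Set.mem_iUnion]
      exact ⟨n + 1, w, hw, by rw [Function.iterate_succ_apply']⟩
    exact h2 hy
  exact map_mem_closure hφ hx h1

lemma orbitSubgroup_mono {G : Type*} [Group G] [TopologicalSpace G] [IsTopologicalGroup G]
    (φ : G →* G) {F F' : Set G} (h : F ⊆ F') : orbitSubgroup φ F ≤ orbitSubgroup φ F' := by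
  apply Subgroup.topologicalClosure_minimal
  · refine le_trans (Subgroup.closure_mono ?_) (Subgroup.le_topologicalClosure _)
    exact Set.iUnion_mono fun n => Set.image_mono h
  · exact Subgroup.isClosed_topologicalClosure _

lemma subset_orbitSubgroup {G : Type*} [Group G] [TopologicalSpace G] [IsTopologicalGroup G]
    (φ : G →* G) (F : Set G) : F ⊆ orbitSubgroup φ F := by
  intro x hx
  apply Subgroup.le_topologicalClosure
  apply Subgroup.subset_closure
  simp only [Set.mem_iUnion]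
  exact ⟨0, x, hx, rfl⟩

/-- Upper continuity for closed invariant subgroups with dense union. -/
lemma upper_continuity {G : Type*} [Group G] [TopologicalSpace G] [IsTopologicalGroup G]
    [LocallyCompactSpace G] [T2Space G] [MeasurableSpace G] [BorelSpace G]
    (μ : Measure G) [μ.IsMulRightInvariant] [IsFiniteMeasureOnCompacts μ]
    [μ.IsOpenPosMeasure] (φ : G →* G) (hφ : Continuous φ)
    {I : Type*} (K : I → Subgroup G) (hclosed : ∀ i, IsClosed (K i : Set G))
    (hinv : ∀ i, ∀ x ∈ K i, φ x ∈ K i) (hdir : Directed (· ≤ ·) K)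
    (hdense : Dense (⋃ i, (K i : Set G)))
    (ν : ∀ i, Measure (K i)) [∀ i, (ν i).IsMulRightInvariant]
    [∀ i, IsFiniteMeasureOnCompacts (ν i)] [∀ i, (ν i).IsOpenPosMeasure] :
    hA μ φ = ⨆ i, hA (ν i) (restr φ (K i) (hinv i)) := by
  have hlc : ∀ i, LocallyCompactSpace (K i) := fun i =>
    (hclosed i).isClosedEmbedding_subtypeVal.locallyCompactSpace
  have hcont : ∀ i, Continuous (restr φ (K i) (hinv i)) := fun i =>
    (hφ.comp continuous_subtype_val).subtype_mk _
  apply le_antisymm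
  · refine hA_le_iSup (fun i => K i) μ φ hφ ν (fun i => restr φ (K i) (hinv i))
      (fun i => (K i).subtype) (fun i => continuous_subtype_val) (fun i x => rfl) ?_ ?_
    · simpa only [Subgroup.range_subtype] using hdir
    · simpa only [Subgroup.range_subtype] using hdense
  · exact iSup_le fun i => hA_le_of_proper μ φ (ν i) _ (hcont i) (K i).subtype
      (hclosed i).isClosedEmbedding_subtypeVal.isProperMap (fun x => rfl)

universe u v w

/-- **Algebraic entropy of continuous endomorphisms of arbitrary locally compact groups.**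
`G` is any locally compact Hausdorff group (not necessarily abelian), `μ` a right Haar measure,
`φ` any continuous endomorphism.

(1) For every compact neighbourhood `C` of `1` the limit superior defining `H_A(φ, C)` is a
    finite limit.
(2) Upper continuity: for every directed family of closed `φ`-invariant subgroups `K i` with
    *dense* union, `h_A(φ) = sup_i h_A(φ|_{K i})`.
(3) For every family of flows `(H i, ψ i)` with continuous equivariant homomorphisms
    `f i : H i → G` (not necessarily injective, nor with closed image) whose images are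
    directed and have dense union, `h_A(φ) ≤ sup_i h_A(ψ i)`; equality holds if the `f i`
    are proper maps.
(4) For every dense subset `X` of `G`, `h_A(φ)` is the supremum of the entropies of the closed
    invariant subgroups topologically generated by the orbits of finitely many points of `X`. -/
theorem result {G : Type u} [Group G] [TopologicalSpace G] [IsTopologicalGroup G]
    [LocallyCompactSpace G] [T2Space G] [MeasurableSpace G] [BorelSpace G]
    (μ : Measure G) [μ.IsMulRightInvariant] [IsFiniteMeasureOnCompacts μ]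
    [μ.IsOpenPosMeasure] (φ : G →* G) (hφ : Continuous φ) :
    (∀ C : Set G, IsCompact C → C ∈ 𝓝 (1 : G) →
      ∃ l : ℝ, 0 ≤ l ∧ HA μ φ C = (l : EReal) ∧
        Tendsto (fun n : ℕ => Real.log (μ (traj φ C n)).toReal / n) atTop (𝓝 l)) ∧
    (∀ (I : Type v) (K : I → Subgroup G) (_ : ∀ i, IsClosed (K i : Set G))
      (hinv : ∀ i, ∀ x ∈ K i, φ x ∈ K i) (_ : Directed (· ≤ ·) K)
      (_ : Dense (⋃ i, (K i : Set G)))
      (ν : ∀ i, Measure (K i)) (_ : ∀ i, (ν i).IsMulRightInvariant)
      (_ : ∀ i, IsFiniteMeasureOnCompacts (ν i)) (_ : ∀ i, (ν i).IsOpenPosMeasure),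
      hA μ φ = ⨆ i, hA (ν i) (restr φ (K i) (hinv i))) ∧
    (∀ (I : Type v) (H : I → Type w) [∀ i, Group (H i)]
      [∀ i, TopologicalSpace (H i)] [∀ i, IsTopologicalGroup (H i)]
      [∀ i, LocallyCompactSpace (H i)] [∀ i, T2Space (H i)] [∀ i, MeasurableSpace (H i)]
      [∀ i, BorelSpace (H i)]
      (ν : ∀ i, Measure (H i)) [∀ i, (ν i).IsMulRightInvariant]
      [∀ i, IsFiniteMeasureOnCompacts (ν i)] [∀ i, (ν i).IsOpenPosMeasure]
      (ψ : ∀ i, H i →* H i) (_ : ∀ i, Continuous (ψ i))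
      (f : ∀ i, H i →* G) (_ : ∀ i, Continuous (f i))
      (_ : ∀ i x, f i (ψ i x) = φ (f i x))
      (_ : Directed (· ≤ ·) fun i => (f i).range)
      (_ : Dense (⋃ i, ((f i).range : Set G))),
      hA μ φ ≤ ⨆ i, hA (ν i) (ψ i) ∧
      ((∀ i, IsProperMap (f i)) → hA μ φ = ⨆ i, hA (ν i) (ψ i))) ∧
    (∀ (X : Set G), Dense X → ∀ (ν : ∀ F : Set G, Measure (orbitSubgroup φ F))
      (_ : ∀ F, (ν F).IsMulRightInvariant) (_ : ∀ F, IsFiniteMeasureOnCompacts (ν F))
      (_ : ∀ F, (ν F).IsOpenPosMeasure),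
      hA μ φ = ⨆ F : {F : Finset G // (F : Set G) ⊆ X},
        hA (ν (F.1 : Set G)) (restr φ (orbitSubgroup φ (F.1 : Set G))
          (orbitSubgroup_invariant φ hφ (F.1 : Set G)))) := by
  refine ⟨fun C hC hC0 => limit_exists μ φ hφ hC hC0, ?_, ?_, ?_⟩
  · intro I K hclosed hinv hdir hdense ν h1 h2 h3
    exact upper_continuity μ φ hφ K hclosed hinv hdir hdense ν
  · intro I H _ _ _ _ _ _ _ ν _ _ _ ψ hψ f hf heq hdir hdense
    have h1 : hA μ φ ≤ ⨆ i, hA (ν i) (ψ i) :=
      hA_le_iSup H μ φ hφ ν ψ f hf heq hdir hdense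
    refine ⟨h1, fun hprop => le_antisymm h1 ?_⟩
    exact iSup_le fun i => hA_le_of_proper μ φ (ν i) (ψ i) (hψ i) (f i) (hprop i) (heq i)
  · intro X hX ν h1 h2 h3
    classical
    refine upper_continuity μ φ hφ (fun F : {F : Finset G // (F : Set G) ⊆ X} =>
      orbitSubgroup φ (F.1 : Set G)) (fun F => Subgroup.isClosed_topologicalClosure _)
      (fun F => orbitSubgroup_invariant φ hφ _) ?_ ?_ (fun F => ν (F.1 : Set G))
    · intro A B
      refine ⟨⟨A.1 ∪ B.1, ?_⟩, ?_, ?_⟩
      · rw [Finset.coe_union]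
        exact Set.union_subset A.2 B.2
      · apply orbitSubgroup_mono
        simp
      · apply orbitSubgroup_mono
        simp
    · refine hX.mono ?_
      intro x hx
      simp only [Set.mem_iUnion]
      refine ⟨⟨{x}, by simpa using hx⟩, ?_⟩
      apply subset_orbitSubgroup
      simp

end Pool.Agent.Results.MP_827700_an.ProperLimits
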